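import Mathlib
import Pool.Agent.H19.DF8x785

open Pool.Agent.H19.DiffFam

theorem Pool.Agent.Results.MP_409a13_co.BlockEight.result :
    ∃ 𝓑 : Finset (Finset (Fin 785)), IsSteiner 785 8 2 𝓑 :=
  steiner8x785
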