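import Mathlib
import Pool.Agent.H19.DF9x793
import Pool.Agent.H19.DF9x873
import Pool.Agent.H19.DF9x1017
import Pool.Agent.H19.DF9x1729
import Pool.Agent.H19.DF9x1737
import Pool.Agent.H19.DF9x3097
import Pool.Agent.H19.DF9x3241
import Pool.Agent.H19.DF9x3321
import Pool.Agent.H19.DF9x5473

open Pool.Agent.H19.DiffFam

theorem Pool.Agent.Results.MP_409a13_co.BlockNine.result :
    ∀ n ∈ ({793, 873, 1017, 1729, 1737, 3097, 3241, 3321, 5473} : Finset ℕ),
      ∃ 𝓑 : Finset (Finset (Fin n)), IsSteiner n 9 2 𝓑 := by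
  intro n hn
  simp only [Finset.mem_insert, Finset.mem_singleton] at hn
  rcases hn with rfl | rfl | rfl | rfl | rfl | rfl | rfl | rfl | rfl
  · exact steiner9x793
  · exact steiner9x873
  · exact steiner9x1017
  · exact steiner9x1729
  · exact steiner9x1737
  · exact steiner9x3097
  · exact steiner9x3241
  · exact steiner9x3321
  · exact steiner9x5473
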