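import Mathlib
import Pool.Agent.H19.DF925
import Pool.Agent.H19.DF1387

open Pool.Agent.H19.DiffFam

theorem Pool.Agent.Results.MP_409a13_co.BlockSeven.result :
    ∀ n ∈ ({925, 1387} : Finset ℕ), ∃ 𝓑 : Finset (Finset (Fin n)), IsSteiner n 7 2 𝓑 := by
  intro n hn
  simp only [Finset.mem_insert, Finset.mem_singleton] at hn
  rcases hn with rfl | rfl
  · exact steiner925
  · exact steiner1387
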