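import Mathlib
import Pool.Agent.H19.DF6x316
import Pool.Agent.H19.DF6x351
import Pool.Agent.H19.DF6x376
import Pool.Agent.H19.DF6x406

open Pool.Agent.H19.DiffFam

theorem Pool.Agent.Results.MP_409a13_co.BlockSix.result :
    ∀ n ∈ ({316, 351, 376, 406} : Finset ℕ),
      ∃ 𝓑 : Finset (Finset (Fin n)), IsSteiner n 6 2 𝓑 := by
  intro n hn
  simp only [Finset.mem_insert, Finset.mem_singleton] at hn
  rcases hn with rfl | rfl | rfl | rfl
  · exact steiner6x316
  · exact steiner6x351
  · exact steiner6x376
  · exact steiner6x406
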